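import Pool.Agent.H683.SC.PosPStm

/-!
# The size of the stack of tables (`S_SZS`)
-/

set_option autoImplicit false

namespace Pool.Agent.NPC.H254SP

open Turing Pool.Agent.NPC Pool.Agent.H633R2 Pool.Agent.H683.MC Pool.Agent.H683.SC

/-- All entries of the table have at most `e` bits. -/
def Bd (e : ℕ) (tb : List ℕ) : Prop := ∀ x ∈ tb, x < 2 ^ e

lemma bd_nil : Bd 0 [] := fun _ h => absurd h List.not_mem_nil

lemma lk_lt (st : List (List ℕ)) (tb : List ℕ) (e : ℕ) (h : Bd e tb) (σ : List ℕ) :
    lk st tb σ < 2 ^ e := by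
  unfold lk
  split
  · rename_i p hp
    have h1 := List.mem_of_find?_eq_some hp
    have h2 : (p.1, p.2) ∈ st.zip tb := h1
    exact h _ (List.of_mem_zip h2).2
  · positivity

lemma sum_map_le (cs : List (ℕ × ℕ)) (f : ℕ × ℕ → ℕ) (B : ℕ) (h : ∀ c, f c ≤ B) :
    (cs.map fun c => c.2 * f c).sum ≤ B * (cs.map Prod.snd).sum := by
  induction cs with
  | nil => simp
  | cons c cs ih =>
    simp only [List.map_cons, List.sum_cons]
    have h1 : c.2 * f c ≤ c.2 * B := Nat.mul_le_mul_left _ (h c)
    nlinarith

lemma sum_snd_le (l : List (ℕ × ℕ)) (B : ℕ) (h : ∀ c ∈ l, c.2 ≤ B) :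
    (l.map Prod.snd).sum ≤ l.length * B := by
  induction l with
  | nil => simp
  | cons c l ih =>
    have h1 := ih fun c hc => h c (List.mem_cons_of_mem _ hc)
    have h2 := h c (by simp)
    simp only [List.map_cons, List.sum_cons, List.length_cons]
    nlinarith

lemma cols_sum (kk q x y fr : ℕ) :
    ((cols kk q x y fr).map Prod.snd).sum ≤ kk * (1 + q) + 1 := by
  unfold cols
  split
  · simp
  · split
    · split
      · have h1 := sum_snd_le ((List.range kk).map fun c => (c, if c = fr then 1 + (q - kk) else 1))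
          (1 + q) (by
            intro c hc
            rw [List.mem_map] at hc
            obtain ⟨a, -, rfl⟩ := hc
            simp only
            split <;> omega)
        rw [List.length_map, List.length_range] at h1
        omega
      · simp
    · split <;> simp

lemma jn_lt (N : ℕ → ℕ → ℕ) (M x y : ℕ) (cs : List (ℕ × ℕ)) (h : ∀ a b, N a b < M) :
    jn N x y cs < 2 * M * ((cs.map Prod.snd).sum + 1) := by
  unfold jn
  have h1 := sum_map_le cs (fun c => N (c.1 + 2) (c.1 + 2) + N 0 0) (2 * M) (by
    intro c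
    have := h (c.1 + 2) (c.1 + 2)
    have := h 0 0
    omega)
  have h2 := h 0 y
  have h3 := h x 0
  refine lt_of_le_of_lt (Nat.sub_le _ _) ?_
  rw [mul_add]
  omega

lemma jv_lt (D : List ℕ) (q : ℕ) (N : List ℕ → ℕ) (e a b : ℕ) (σ : List ℕ)
    (h : ∀ τ, N τ < 2 ^ e) : jv D q N a b σ < 2 ^ (e + (D.length + 2 + q.size)) := by
  unfold jv
  refine lt_of_lt_of_le (jn_lt _ (2 ^ e) _ _ _ (fun x y => h _)) ?_
  have h1 := cols_sum D.length q (σ.getD (D.idxOf a) 0) (σ.getD (D.idxOf b) 0)
      (frs D.length ((σ.set (D.idxOf a) 0).set (D.idxOf b) 0))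
  have h2 : q + 1 ≤ 2 ^ q.size := Nat.lt_size_self q
  have h3 : D.length + 2 ≤ 2 ^ (D.length + 1) := Nat.lt_two_pow_self
  have h4 : D.length * (1 + q) + 1 + 1 ≤ (D.length + 2) * (q + 1) := by nlinarith
  have h5 : (D.length + 2) * (q + 1) ≤ 2 ^ (D.length + 1) * 2 ^ q.size := Nat.mul_le_mul h3 h2
  have e1 : 2 ^ (e + (D.length + 2 + q.size)) = 2 * 2 ^ e * (2 ^ (D.length + 1) * 2 ^ q.size) := by
    rw [← pow_add, mul_comm 2 (2 ^ e), ← pow_succ, ← pow_add]
    congr 1
    omega
  rw [e1]
  apply Nat.mul_le_mul_left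
  omega

/-- The entries of the tables of the stack have at most `es` bits. -/
def Inv (m E : ℕ) (s : List (List ℕ)) : Prop :=
  (∃ es : List ℕ, List.Forall₂ Bd es s ∧ es.sum ≤ E) ∧ ∀ tb ∈ s, tb.length ≤ m

lemma inv_getD {es : List ℕ} {s : List (List ℕ)} (h : List.Forall₂ Bd es s) (i : ℕ) :
    Bd (es.getD i 0) (s.getD i []) := by
  induction h generalizing i with
  | nil => simpa using bd_nil
  | cons h1 _ ih =>
    cases i with
    | zero => simpa using h1
    | succ i => simpa using ih i

lemma forall_drop {es : List ℕ} {s : List (List ℕ)} (h : List.Forall₂ Bd es s) (i : ℕ) :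
    List.Forall₂ Bd (es.drop i) (s.drop i) := List.forall₂_drop i h

lemma sum_drop2 (es : List ℕ) : es.getD 1 0 + es.getD 0 0 + (es.drop 2).sum = es.sum := by
  match es with
  | [] => simp
  | [a] => simp
  | a :: b :: l => simp; omega

lemma sum_drop1 (es : List ℕ) : es.getD 0 0 + (es.drop 1).sum = es.sum := by
  match es with
  | [] => simp
  | a :: l => simp

lemma bd_map (st : List (List ℕ)) (f : List ℕ → ℕ) (e : ℕ) (h : ∀ σ, f σ < 2 ^ e) :
    Bd e (st.map f) := by
  intro x hx
  rw [List.mem_map] at hx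
  obtain ⟨σ, -, rfl⟩ := hx
  exact h σ

lemma tst_inv (D : List ℕ) (X q : ℕ) (st s : List (List ℕ)) (o : ℕ × ℕ × ℕ) (E : ℕ)
    (h : Inv st.length E s) :
    Inv st.length (E + (X.size + q.size + D.length + 2)) (tst D X q st s o) := by
  obtain ⟨⟨es, h1, h2⟩, h3⟩ := h
  have hd : ∀ i, ∀ tb ∈ s.drop i, tb.length ≤ st.length := fun i tb htb =>
    h3 tb (List.mem_of_mem_drop htb)
  have h0 := inv_getD h1 0
  have h01 := inv_getD h1 1
  unfold tst
  split
  · refine ⟨⟨(X.size + q.size + 1) :: es, List.Forall₂.cons ?_ h1, ?_⟩, ?_⟩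
    · apply bd_map
      intro σ
      have h4 : szS q (σ.getD (D.idxOf o.2.1) 0) ≤ 2 ^ q.size := by
        have h5 : q + 1 ≤ 2 ^ q.size := Nat.lt_size_self q
        unfold szS
        split
        · omega
        · split <;> omega
      have h5 : X + 1 ≤ 2 ^ X.size := Nat.lt_size_self X
      have h6 : X * szS q (σ.getD (D.idxOf o.2.1) 0) ≤ X * 2 ^ q.size := Nat.mul_le_mul_left _ h4
      have h7 : 1 ≤ 2 ^ q.size := Nat.one_le_two_pow
      have h8 : (X + 1) * 2 ^ q.size ≤ 2 ^ X.size * 2 ^ q.size := Nat.mul_le_mul_right _ h5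
      have h9 : 0 < 2 ^ X.size * 2 ^ q.size := by positivity
      rw [pow_succ, pow_add]
      nlinarith
    · simp only [List.sum_cons]
      omega
    · intro tb htb
      rcases List.mem_cons.1 htb with h4 | h4
      · rw [h4, List.length_map]
      · exact h3 tb h4
  · split
    · refine ⟨⟨(es.getD 1 0 + es.getD 0 0) :: es.drop 2, List.Forall₂.cons ?_ (forall_drop h1 2), ?_⟩, ?_⟩
      · apply bd_map
        intro σ
        rw [pow_add]
        exact Nat.mul_lt_mul_of_lt_of_lt (lk_lt st _ _ h01 σ) (lk_lt st _ _ h0 σ)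
      · rw [List.sum_cons, sum_drop2]
        omega
      · intro tb htb
        rcases List.mem_cons.1 htb with h4 | h4
        · rw [h4, List.length_map]
        · exact hd 2 tb h4
    · split
      · refine ⟨⟨(es.getD 0 0 + (D.length + 2 + q.size)) :: es.drop 1,
          List.Forall₂.cons ?_ (forall_drop h1 1), ?_⟩, ?_⟩
        · apply bd_map
          intro σ
          exact jv_lt D q _ _ _ _ σ (lk_lt st _ _ h0)
        · have := sum_drop1 es
          rw [List.sum_cons]
          omega
        · intro tb htb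
          rcases List.mem_cons.1 htb with h4 | h4
          · rw [h4, List.length_map]
          · exact hd 1 tb h4
      · refine ⟨⟨es.getD 0 0 :: es.drop 1, List.Forall₂.cons ?_ (forall_drop h1 1), ?_⟩, ?_⟩
        · apply bd_map
          intro σ
          exact lk_lt st _ _ h0 _
        · rw [List.sum_cons, sum_drop1]
          omega
        · intro tb htb
          rcases List.mem_cons.1 htb with h4 | h4
          · rw [h4, List.length_map]
          · exact hd 1 tb h4

lemma tst_length (D : List ℕ) (X q : ℕ) (st s : List (List ℕ)) (o : ℕ × ℕ × ℕ) :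
    (tst D X q st s o).length ≤ s.length + 1 := by
  unfold tst
  split
  · simp
  · split
    · simp only [List.length_cons, List.length_drop]; omega
    · split
      · simp only [List.length_cons, List.length_drop]; omega
      · simp only [List.length_cons, List.length_drop]; omega

lemma fold_inv (D : List ℕ) (X q : ℕ) (st : List (List ℕ)) (w : List (ℕ × ℕ × ℕ)) :
    ∀ (s : List (List ℕ)) (E : ℕ), Inv st.length E s →
      Inv st.length (E + w.length * (X.size + q.size + D.length + 2)) (w.foldl (tst D X q st) s) ∧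
      (w.foldl (tst D X q st) s).length ≤ s.length + w.length := by
  induction w with
  | nil => intro s E h; simpa using h
  | cons o w ih =>
    intro s E h
    have h1 := ih _ _ (tst_inv D X q st s o E h)
    have h2 := tst_length D X q st s o
    simp only [List.foldl_cons, List.length_cons]
    refine ⟨?_, by omega⟩
    have e1 : E + (w.length + 1) * (X.size + q.size + D.length + 2) =
        E + (X.size + q.size + D.length + 2) + w.length * (X.size + q.size + D.length + 2) := by ring
    rw [e1]
    exact h1.1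

lemma inv_sz (m E : ℕ) (s : List (List ℕ)) (h : Inv m E s) :
    sz s ≤ s.length * (m * (4 * E + 2) + 2) + 1 := by
  obtain ⟨⟨es, h1, h2⟩, h3⟩ := h
  apply sz_le_length_mul
  intro tb htb
  have h4 : ∀ x ∈ tb, sz x ≤ 4 * E + 1 := by
    intro x hx
    obtain ⟨i, hi, hi2⟩ := List.getElem_of_mem htb
    have h5 := inv_getD h1 i
    have h6 : s.getD i [] = tb := by
      rw [List.getD_eq_getElem _ _ hi]
      exact hi2
    rw [h6] at h5
    have h7 := Nat.size_le.2 (h5 x hx)
    have h8 : es.getD i 0 ≤ es.sum := by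
      rcases Nat.lt_or_ge i es.length with h9 | h9
      · rw [List.getD_eq_getElem _ _ h9]
        exact List.single_le_sum (fun _ _ => Nat.zero_le _) _ (List.getElem_mem h9)
      · rw [List.getD_eq_default _ _ h9]
        exact Nat.zero_le _
    have h9 := sz_nat_le x
    omega
  have h5 := sz_le_length_mul tb _ h4
  have h6 := Nat.mul_le_mul_right (4 * E + 2) (h3 tb htb)
  have e1 : 4 * E + 1 + 1 = 4 * E + 2 := rfl
  rw [e1] at h5
  omega

theorem SZS : S_SZS := by
  refine ⟨Polynomial.X * (Polynomial.X * (4 * (Polynomial.X * (Polynomial.X + 2)) + 2) + 2) + 1, ?_⟩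
  intro D X q st w
  have h1 := fold_inv D X q st w [] 0 ⟨⟨[], List.Forall₂.nil, le_rfl⟩, fun _ h => absurd h List.not_mem_nil⟩
  obtain ⟨h1, h2⟩ := h1
  have h3 := inv_sz _ _ _ h1
  have hw := length_lt_sz w
  have hst := length_lt_sz st
  have hD := length_lt_sz D
  have hX := size_le_sz X
  have hq := size_le_sz q
  set S := sz D + sz X + sz q + sz st + sz w with hS
  have hw' : w.length ≤ S := by omega
  have hst' : st.length ≤ S := by omega
  have hc : X.size + q.size + D.length + 2 ≤ S + 2 := by omega
  simp only [List.length_nil, zero_add] at h2 h3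
  refine h3.trans ?_
  simp only [Polynomial.eval_add, Polynomial.eval_mul, Polynomial.eval_X, Polynomial.eval_ofNat,
    Polynomial.eval_one]
  gcongr
  omega

end Pool.Agent.NPC.H254SP
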